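import Pool.Agent.X240.DR.Opens

/-!
# Affine linear sections of the general linear groups, of the varieties of nondegenerate symmetric
and of nondegenerate alternating matrices
-/

set_option autoImplicit false

open CategoryTheory AlgebraicGeometry MvPolynomial Matrix Pool.Agent.Y116.UV Pool.Agent.Z125.UN

namespace Pool.Agent.X240.DR

/-- The matrix `Q 0 + x_1 Q 1 + ⋯ + x_N Q N` with entries in the polynomial ring. -/
noncomputable def lin {k : Type} [CommRing k] {N r : ℕ}
    (Q : Fin (N + 1) → Matrix (Fin r) (Fin r) k) : Matrix (Fin r) (Fin r) (MvPolynomial (Fin N) k) :=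
  fun a b => C (Q 0 a b) + ∑ s : Fin N, C (Q s.succ a b) * X s

/-- The open subscheme `det (Q 0 + x_1 Q 1 + ⋯ + x_N Q N) ≠ 0` of the affine space of dimension `N`. -/
noncomputable def linSec {k : Type} [CommRing k] {N r : ℕ}
    (Q : Fin (N + 1) → Matrix (Fin r) (Fin r) k) : Sch k :=
  aff k (Localization.Away (lin Q).det)

section

variable {R : Type} [CommRing R]

/-- The block matrix with the blocks `0`, `L`, `c L^T`, `0` -/
def dbl {S : Type} [CommRing S] (c : S) {r : ℕ} (L : Matrix (Fin r) (Fin r) S) :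
    Matrix (Fin r ⊕ Fin r) (Fin r ⊕ Fin r) S :=
  fromBlocks 0 L (c • Lᵀ) 0

lemma det_dbl {S : Type} [CommRing S] (c : S) {r : ℕ} (L : Matrix (Fin r) (Fin r) S) :
    ∃ u : S, u * u = 1 ∧ (dbl c L).det = u * (c ^ r * L.det ^ 2) := by
  let s : Matrix (Fin r ⊕ Fin r) (Fin r ⊕ Fin r) S := fromBlocks 0 1 1 0
  have h1 : s * s = 1 := by
    simp only [s, fromBlocks_multiply]
    simp
  have h2 : s.det * s.det = 1 := by rw [← det_mul, h1, det_one]
  have h3 : dbl c L * s = fromBlocks L 0 0 (c • Lᵀ) := by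
    simp only [dbl, s, fromBlocks_multiply]
    simp
  have h4 : (dbl c L).det * s.det = c ^ r * L.det ^ 2 := by
    rw [← det_mul, h3, det_fromBlocks_zero₂₁, det_smul, det_transpose, Fintype.card_fin]
    ring
  refine ⟨s.det, h2, ?_⟩
  calc (dbl c L).det = (dbl c L).det * (s.det * s.det) := by rw [h2, mul_one]
    _ = s.det * ((dbl c L).det * s.det) := by ring
    _ = _ := by rw [h4]

/-- Coefficient matrices of a matrix with entries of degree at most one -/
lemma exists_coeff {N r : ℕ} (L : Matrix (Fin r) (Fin r) (MvPolynomial (Fin N) R))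
    (hL : ∀ a b, Aff (L a b)) : ∃ Q : Fin (N + 1) → Matrix (Fin r) (Fin r) R, lin Q = L := by
  choose c a h using hL
  refine ⟨Fin.cons (fun i j => c i j) (fun s i j => a i j s), ?_⟩
  ext1 i j
  rw [h i j, lin]
  simp

variable {N : ℕ}

/-- coefficient matrices of the doubled matrix -/
noncomputable def dblQ (c : R) {r : ℕ} (Q : Fin (N + 1) → Matrix (Fin r) (Fin r) R) (s : Fin (N + 1)) :
    Matrix (Fin (r + r)) (Fin (r + r)) R :=
  (dbl c (Q s)).submatrix finSumFinEquiv.symm finSumFinEquiv.symm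

lemma lin_dblQ (c : R) {r : ℕ} (Q : Fin (N + 1) → Matrix (Fin r) (Fin r) R) :
    lin (dblQ c Q) = (dbl (C c) (lin Q)).submatrix finSumFinEquiv.symm finSumFinEquiv.symm := by
  ext1 i j
  rw [submatrix_apply]
  simp only [lin, dblQ, submatrix_apply]
  generalize finSumFinEquiv.symm i = x
  generalize finSumFinEquiv.symm j = y
  rcases x with x | x <;> rcases y with y | y
  · simp [dbl]
  · simp [dbl, lin]
  · simp only [dbl, fromBlocks_apply₂₁, Matrix.smul_apply, transpose_apply, smul_eq_mul, lin,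
      map_mul, mul_add, Finset.mul_sum, mul_assoc]
  · simp [dbl]

lemma symm_dblQ {r : ℕ} (Q : Fin (N + 1) → Matrix (Fin r) (Fin r) R) (s : Fin (N + 1)) :
    (dblQ 1 Q s).IsSymm := by
  rw [Matrix.IsSymm, dblQ, transpose_submatrix]
  congr 1
  rw [dbl, fromBlocks_transpose]
  simp

lemma alt_dblQ {r : ℕ} (Q : Fin (N + 1) → Matrix (Fin r) (Fin r) R) (s : Fin (N + 1))
    (a b : Fin (r + r)) : dblQ (-1) Q s a b = -dblQ (-1) Q s b a ∧ dblQ (-1) Q s a a = 0 := by
  simp only [dblQ, submatrix_apply]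
  generalize finSumFinEquiv.symm a = x
  generalize finSumFinEquiv.symm b = y
  rcases x with x | x <;> rcases y with y | y <;> simp [dbl]

variable {sep : Prop} {P : Sch R → Prop} (hP : Bnd sep P)

include hP

/-- From the sections with doubled matrices to all principal open subschemes -/
lemma of_dbl (c : R) (hc : c * c = 1)
    (h : ∀ (r : ℕ) (Q : Fin (N + 1) → Matrix (Fin r) (Fin r) R), P (linSec (dblQ c Q)))
    (w : MvPolynomial (Fin N) R) : P (aff R (Localization.Away w)) := by
  obtain ⟨r, L, hL, hd⟩ := det_rep w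
  obtain ⟨Q, hQ⟩ := exists_coeff L hL
  have h1 := h r Q
  obtain ⟨u, hu, hdet⟩ := det_dbl (C c) L
  have h2 : (lin (dblQ c Q)).det = u * (C c ^ r * w ^ 2) := by
    rw [lin_dblQ, det_submatrix_equiv_self, hQ, hdet, hd]
  have h3 : (C c : MvPolynomial (Fin N) R) * C c = 1 := by rw [← map_mul, hc, map_one]
  rw [linSec, h2] at h1
  refine away_congr hP (m := 2) (n := 1) ?_ ?_ h1
  · refine ⟨u * C c ^ r, ?_⟩
    calc w ^ 2 = w ^ 2 * (u * u) * (C c * C c) ^ r := by rw [hu, h3, one_pow, mul_one, mul_one]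
      _ = _ := by rw [mul_pow]; ring
  · rw [pow_one]
    exact ⟨u * C c ^ r * w, by ring⟩

end

section

variable {R : Type} [CommRing R] {N r : ℕ}

/-- sections are smooth -/
lemma smooth_section (Q : Fin (N + 1) → Matrix (Fin r) (Fin r) R) :
    Algebra.Smooth R (Localization.Away (lin Q).det) := by
  have h1 : Algebra.Smooth (MvPolynomial (Fin N) R) (Localization.Away (lin Q).det) :=
    Algebra.Smooth.of_isLocalization_Away (lin Q).det
  have h2 : Algebra.Smooth R (MvPolynomial (Fin N) R) := ⟨inferInstance, inferInstance⟩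
  exact Algebra.Smooth.comp R (MvPolynomial (Fin N) R) _

end

end Pool.Agent.X240.DR
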