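import Mathlib

/-!
# Every polynomial is the determinant of a matrix of polynomials of degree at most one
-/

set_option autoImplicit false

open MvPolynomial Matrix

namespace Pool.Agent.X240.DR

section

variable {R σ : Type} [CommRing R] [Fintype σ]

/-- polynomials of degree at most one, with coefficients -/
def Aff (p : MvPolynomial σ R) : Prop :=
  ∃ (c : R) (a : σ → R), p = C c + ∑ s, C (a s) * X s

lemma aff_C (c : R) : Aff (C c : MvPolynomial σ R) := ⟨c, 0, by simp⟩

lemma aff_zero : Aff (0 : MvPolynomial σ R) := ⟨0, 0, by simp⟩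

lemma aff_one : Aff (1 : MvPolynomial σ R) := ⟨1, 0, by simp⟩

lemma aff_X (s : σ) : Aff (X s : MvPolynomial σ R) := by
  classical
  refine ⟨0, Pi.single s 1, ?_⟩
  rw [map_zero, zero_add, Finset.sum_eq_single s]
  · rw [Pi.single_eq_same, map_one, one_mul]
  · intro t _ ht
    rw [Pi.single_eq_of_ne ht, map_zero, zero_mul]
  · intro h
    exact absurd (Finset.mem_univ s) h

lemma aff_add {p q : MvPolynomial σ R} (hp : Aff p) (hq : Aff q) : Aff (p + q) := by
  obtain ⟨c, a, rfl⟩ := hp
  obtain ⟨d, b, rfl⟩ := hq
  refine ⟨c + d, a + b, ?_⟩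
  simp only [map_add, Pi.add_apply, add_mul, Finset.sum_add_distrib]
  ring

lemma aff_neg {p : MvPolynomial σ R} (hp : Aff p) : Aff (-p) := by
  obtain ⟨c, a, rfl⟩ := hp
  refine ⟨-c, -a, ?_⟩
  simp only [map_neg, Pi.neg_apply, neg_mul, Finset.sum_neg_distrib]
  ring

/-- composition of two extensions -/
lemma compose {S ι κ κ' : Type} [CommRing S] [Fintype ι] [DecidableEq ι] [Fintype κ]
    [DecidableEq κ] [Fintype κ'] [DecidableEq κ'] (L : Matrix (ι ⊕ κ) (ι ⊕ κ) S)
    (L' : Matrix ((ι ⊕ κ) ⊕ κ') ((ι ⊕ κ) ⊕ κ') S) (B : Matrix ι ι S) :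
    (fromBlocks (fromBlocks B 0 0 0 + L) 0 0 0 + L').det =
      (fromBlocks B 0 0 0 + (fromBlocks L 0 0 0 + L').submatrix (Equiv.sumAssoc ι κ κ').symm
        (Equiv.sumAssoc ι κ κ').symm).det := by
  rw [← Matrix.det_submatrix_equiv_self (Equiv.sumAssoc ι κ κ').symm
    (fromBlocks (fromBlocks B 0 0 0 + L) 0 0 0 + L')]
  congr 1
  ext i j
  rcases i with i | i | i <;> rcases j with j | j | j <;>
    simp [Matrix.submatrix_apply, Matrix.add_apply, add_assoc]

/-- A polynomial in one entry of a matrix can be removed by adding rows and columns with entries of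
degree at most one. -/
theorem rep (f : MvPolynomial σ R) : ∀ (ι : Type) [Fintype ι] [DecidableEq ι] (i j : ι),
    ∃ (κ : Type) (_ : Fintype κ) (_ : DecidableEq κ)
      (L : Matrix (ι ⊕ κ) (ι ⊕ κ) (MvPolynomial σ R)), (∀ a b, Aff (L a b)) ∧
      ∀ B : Matrix ι ι (MvPolynomial σ R),
        (B + Matrix.single i j f).det = (fromBlocks B 0 0 0 + L).det := by
  classical
  induction f using MvPolynomial.induction_on with
  | C c =>
    intro ι _ _ i j
    refine ⟨Empty, inferInstance, inferInstance, fromBlocks (Matrix.single i j (C c)) 0 0 0, ?_, ?_⟩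
    · rintro (a | a) (b | b)
      · rw [fromBlocks_apply₁₁, Matrix.single_apply]
        split_ifs
        · exact aff_C c
        · exact aff_zero
      · exact b.elim
      · exact a.elim
      · exact a.elim
    · intro B
      rw [fromBlocks_add]
      simp only [add_zero]
      rw [det_fromBlocks_zero₂₁, det_isEmpty (A := (0 : Matrix Empty Empty (MvPolynomial σ R))),
        mul_one]
  | add p q hp hq =>
    intro ι _ _ i j
    obtain ⟨κ, _, _, L, hL, h1⟩ := hp ι i j
    obtain ⟨κ', _, _, L', hL', h2⟩ := hq (ι ⊕ κ) (Sum.inl i) (Sum.inl j)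
    refine ⟨κ ⊕ κ', inferInstance, inferInstance,
      (fromBlocks L 0 0 0 + L').submatrix (Equiv.sumAssoc ι κ κ').symm
        (Equiv.sumAssoc ι κ κ').symm, ?_, ?_⟩
    · intro a b
      rw [submatrix_apply, Matrix.add_apply]
      refine aff_add ?_ (hL' _ _)
      generalize (Equiv.sumAssoc ι κ κ').symm a = x
      generalize (Equiv.sumAssoc ι κ κ').symm b = y
      rcases x with x | x <;> rcases y with y | y
      · exact hL x y
      · exact aff_zero
      · exact aff_zero
      · exact aff_zero
    · intro B
      rw [← compose, ← h2]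
      have e1 : B + Matrix.single i j (p + q) = (B + Matrix.single i j q) + Matrix.single i j p := by
        rw [Matrix.single_add]
        abel
      have e2 : fromBlocks B 0 0 0 + L + Matrix.single (Sum.inl i : ι ⊕ κ) (Sum.inl j : ι ⊕ κ) q =
          fromBlocks (B + Matrix.single i j q) 0 0 0 + L := by
        have e3 : Matrix.single (Sum.inl i : ι ⊕ κ) (Sum.inl j : ι ⊕ κ) q =
            fromBlocks (Matrix.single i j q) 0 0 0 := by
          ext x y
          rcases x with x | x <;> rcases y with y | y <;> simp [Matrix.single_apply]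
        rw [e3, show fromBlocks (B + Matrix.single i j q) 0 0 0 =
          fromBlocks B 0 0 0 + fromBlocks (Matrix.single i j q) 0 0 0 by
            rw [fromBlocks_add]; simp]
        abel
      rw [e1, h1, e2]
  | mul_X p s hp =>
    intro ι _ _ i j
    obtain ⟨κ', _, _, L', hL', h2⟩ := hp (ι ⊕ Unit) (Sum.inr ()) (Sum.inl j)
    let L : Matrix (ι ⊕ Unit) (ι ⊕ Unit) (MvPolynomial σ R) :=
      fromBlocks 0 (fun a _ => if a = i then -X s else 0) 0 1
    refine ⟨Unit ⊕ κ', inferInstance, inferInstance,
      (fromBlocks L 0 0 0 + L').submatrix (Equiv.sumAssoc ι Unit κ').symm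
        (Equiv.sumAssoc ι Unit κ').symm, ?_, ?_⟩
    · intro a b
      rw [submatrix_apply, Matrix.add_apply]
      refine aff_add ?_ (hL' _ _)
      generalize (Equiv.sumAssoc ι Unit κ').symm a = x
      generalize (Equiv.sumAssoc ι Unit κ').symm b = y
      rcases x with (x | x) | x <;> rcases y with (y | y) | y
      · exact aff_zero
      · change Aff (if x = i then -X s else 0)
        split_ifs
        · exact aff_neg (aff_X s)
        · exact aff_zero
      · exact aff_zero
      · exact aff_zero
      · change Aff ((1 : Matrix Unit Unit (MvPolynomial σ R)) x y)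
        rw [Subsingleton.elim x y, one_apply_eq]
        exact aff_one
      · exact aff_zero
      · exact aff_zero
      · exact aff_zero
      · exact aff_zero
    · intro B
      rw [← compose, ← h2]
      have e1 : fromBlocks B 0 0 0 + L + Matrix.single (Sum.inr ()) (Sum.inl j) p =
          fromBlocks B (fun a _ => if a = i then -X s else 0)
            (fun _ b => if b = j then p else 0) 1 := by
        ext x y
        rcases x with x | x <;> rcases y with y | y
        · simp [L]
        · simp [L]
        · simp only [L, Matrix.add_apply, fromBlocks_apply₂₁, Matrix.zero_apply, zero_add,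
            Matrix.single_apply, Sum.inl.injEq]
          by_cases h : y = j
          · subst h
            simp
          · have h' : ¬ j = y := fun h0 => h h0.symm
            simp [h, h']
        · simp [L]
      rw [e1, det_fromBlocks_one₂₂]
      congr 1
      ext x y
      simp only [Matrix.add_apply, Matrix.sub_apply, Matrix.mul_apply, Matrix.single_apply,
        Finset.univ_unique, Finset.sum_singleton]
      by_cases hx : x = i <;> by_cases hy : y = j
      · subst hx hy
        simp
        ring_nf
      · subst hx
        have h' : ¬ j = y := fun h0 => hy h0.symm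
        simp [hy, h']
      · have h' : ¬ i = x := fun h0 => hx h0.symm
        simp [hx, h']
      · have h' : ¬ i = x := fun h0 => hx h0.symm
        simp [hx, h']

/-- Every polynomial is the determinant of a matrix with entries of degree at most one. -/
theorem det_rep (f : MvPolynomial σ R) : ∃ (r : ℕ)
    (L : Matrix (Fin r) (Fin r) (MvPolynomial σ R)), (∀ a b, Aff (L a b)) ∧ L.det = f := by
  obtain ⟨κ, _, _, L, hL, h⟩ := rep f Unit () ()
  have h1 := h 0
  have h2 : fromBlocks (0 : Matrix Unit Unit (MvPolynomial σ R)) 0 0 (0 : Matrix κ κ _) = 0 :=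
    fromBlocks_zero
  rw [h2, zero_add, zero_add] at h1
  let e := (Fintype.equivFin (Unit ⊕ κ)).symm
  refine ⟨_, L.submatrix e e, fun a b => hL _ _, ?_⟩
  rw [Matrix.det_submatrix_equiv_self, ← h1]
  simp [Matrix.det_unique]

end

end Pool.Agent.X240.DR
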