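import Pool.Agent.Z125.UN.MotUni
import Pool.Agent.Z125.UN.Sym
import Pool.Agent.X240.DR.Rep

/-!
# From principal open subschemes of an affine space to all its closed subschemes
-/

set_option autoImplicit false

open CategoryTheory AlgebraicGeometry MvPolynomial Pool.Agent.Y116.UV Pool.Agent.Z125.UN

namespace Pool.Agent.X240.DR

section

variable {R : Type} [CommRing R] {σ : Type}

/-- no equations -/
def noEq (σ R : Type) [CommRing R] (k : Empty) : MvPolynomial σ R := k.elim

variable (w : MvPolynomial σ R)

/-- the localization as a piece: the map -/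
noncomputable def awF : Localization.Away w →ₐ[R] Pc (noEq σ R) w :=
  IsLocalization.liftAlgHom (M := Submonoid.powers w) (f := pc (noEq σ R) w) (by
    rintro ⟨_, n, rfl⟩
    change IsUnit (pc (noEq σ R) w (w ^ n))
    rw [map_pow]
    exact (pc_unit (noEq σ R) w).pow n)

lemma awF_algebraMap (p : MvPolynomial σ R) :
    awF w (algebraMap _ (Localization.Away w) p) = pc (noEq σ R) w p := by
  rw [awF, IsLocalization.liftAlgHom_apply, IsLocalization.lift_eq]
  rfl

lemma aeval_algebraMap (p : MvPolynomial σ R) :
    aeval (fun s => algebraMap (MvPolynomial σ R) (Localization.Away w) (X s)) p =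
      algebraMap (MvPolynomial σ R) (Localization.Away w) p := by
  have h : aeval (fun s => algebraMap (MvPolynomial σ R) (Localization.Away w) (X s)) =
      IsScalarTower.toAlgHom R (MvPolynomial σ R) (Localization.Away w) := by
    apply MvPolynomial.algHom_ext
    intro s
    rw [aeval_X]
    rfl
  rw [h]
  rfl

/-- the inverse map -/
noncomputable def awG : Pc (noEq σ R) w →ₐ[R] Localization.Away w :=
  pcLift (noEq σ R) w (fun s => algebraMap (MvPolynomial σ R) (Localization.Away w) (X s))
    (fun k => k.elim)
    (by
      rw [aeval_algebraMap]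
      exact IsLocalization.Away.algebraMap_isUnit w)

/-- the localization as a piece -/
noncomputable def awE : Localization.Away w ≃ₐ[R] Pc (noEq σ R) w :=
  AlgEquiv.ofAlgHom (awF w) (awG w)
    (by
      apply pc_ext
      intro s
      rw [AlgHom.comp_apply, awG, pcLift_pv, awF_algebraMap]
      rfl)
    (by
      apply IsLocalization.algHom_ext (Submonoid.powers w)
      apply MvPolynomial.algHom_ext
      intro s
      change awG w (awF w (algebraMap _ (Localization.Away w) (X s))) =
        algebraMap _ (Localization.Away w) (X s)
      rw [awF_algebraMap]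
      exact pcLift_pv _ _ _ _ _ s)

end

section

variable {R : Type} [CommRing R] {sep : Prop} {P : Sch R → Prop} (hP : Bnd sep P) {σ : Type}
  [Finite σ]

include hP

/-- Principal open subschemes given by functions dividing powers of each other -/
lemma away_congr {a b : MvPolynomial σ R} {m n : ℕ} (h1 : a ∣ b ^ m) (h2 : b ∣ a ^ n)
    (h : P (aff R (Localization.Away a))) : P (aff R (Localization.Away b)) := by
  have e1 : Pc (noEq σ R) a ≃ₐ[R] Pc (noEq σ R) b := pcSame (fun k => k.elim)
    (isUnit_of_dvd_unit (map_dvd (pc (noEq σ R) b) h1) (by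
      rw [map_pow]
      exact (pc_unit (noEq σ R) b).pow m)) (fun k => k.elim)
    (isUnit_of_dvd_unit (map_dvd (pc (noEq σ R) a) h2) (by
      rw [map_pow]
      exact (pc_unit (noEq σ R) a).pow n))
  have : Algebra.FiniteType R (Localization.Away a) :=
    Algebra.FiniteType.trans (S := MvPolynomial σ R) inferInstance inferInstance
  exact iso_alg hP.toUni (((awE a).trans e1).trans (awE b).symm) h

/-- From principal open subschemes to all locally closed subschemes. -/
theorem all_pieces (h : ∀ w : MvPolynomial σ R, P (aff R (Localization.Away w))) (κ : Type)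
    [Finite κ] : ∀ (G : κ → MvPolynomial σ R) (w : MvPolynomial σ R), P (aff R (Pc G w)) := by
  induction κ using Finite.induction_empty_option with
  | of_equiv e ih =>
    intro G w
    have e1 : Pc (G ∘ e) w ≃ₐ[R] Pc G w := pcSame (fun k => pc_rel G w (e k)) (pc_unit G w)
      (fun k => by
        have h1 := pc_rel (G ∘ e) w (e.symm k)
        rwa [Function.comp_apply, Equiv.apply_symm_apply] at h1) (pc_unit (G ∘ e) w)
    exact iso_alg hP.toUni e1 (ih (G ∘ e) w)
  | h_empty =>
    intro G w
    have e1 : Pc (noEq σ R) w ≃ₐ[R] Pc G w := pcSame (fun k => k.elim) (pc_unit G w)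
      (fun k => k.elim) (pc_unit _ w)
    have : Algebra.FiniteType R (Localization.Away w) :=
      Algebra.FiniteType.trans (S := MvPolynomial σ R) inferInstance inferInstance
    exact iso_alg hP.toUni ((awE w).trans e1) (h w)
  | h_option ih =>
    intro G w
    have e1 : Pc (adj (fun k => G (some k)) (G none)) w ≃ₐ[R] Pc G w :=
      pcSame (fun k => by cases k <;> exact pc_rel G w _) (pc_unit G w)
        (fun k => by
          cases k with
          | none => exact pc_rel (adj (fun k => G (some k)) (G none)) w none
          | some k => exact pc_rel (adj (fun k => G (some k)) (G none)) w (some k))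
        (pc_unit _ w)
    exact iso_alg hP.toUni e1 (pc_closed hP (ih (fun k => G (some k)) w)
      (ih (fun k => G (some k)) (w * G none)))

/-- From principal open subschemes to all closed subschemes. -/
theorem all_closed [IsNoetherianRing R]
    (h : ∀ w : MvPolynomial σ R, P (aff R (Localization.Away w)))
    (I : Ideal (MvPolynomial σ R)) : P (aff R (MvPolynomial σ R ⧸ I)) := by
  obtain ⟨S, hS⟩ : I.FG := IsNoetherian.noetherian I
  have h1 := all_pieces hP h S (fun x => (x : MvPolynomial σ R)) 1
  have h2 : Ideal.span (Set.range fun x : S => (x : MvPolynomial σ R)) = I := by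
    rw [← hS]
    congr 1
    exact Subtype.range_coe
  have h3 := iso_alg hP.toUni (oneE (fun x : S => (x : MvPolynomial σ R))).symm h1
  rwa [h2] at h3

end

section

variable {R : Type} [CommRing R] {sep : Prop} {P : Sch R → Prop} (hP : Bnd sep P) {N : ℕ}

include hP

/-- From closed subschemes to principal open subschemes. -/
theorem open_of_closed (hA : ∀ I : Ideal (MvPolynomial (Fin N) R),
    P (aff R (MvPolynomial (Fin N) R ⧸ I))) (w : MvPolynomial (Fin N) R) :
    P (aff R (Localization.Away w)) := by
  exact iso_alg hP.toUni (awE w).symm (piece hP hA le_rfl Empty (noEq (Fin N) R) w)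

end

end Pool.Agent.X240.DR
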